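import Pool.Agent.Lib.helper29.KyF

open Pool.Agent.Lib.H29.KyF

namespace Pool.Agent.Results.MP_30f82a_an.Fails

theorem result : ∃ (n : ℕ) (A B : Matrix (Fin n) (Fin n) ℂ) (k : ℕ), A.IsHermitian ∧
    B.IsHermitian ∧ 1 ≤ k ∧ k ≤ n ∧
      2 * ∑ i ∈ Finset.range k, sv A i * sv (RR B) i < kyFan k (LL A B) := by
  refine ⟨20, A0, B0, 20, A0_h, B0_h, by norm_num, le_rfl, ?_⟩
  have h : ∑ i ∈ Finset.range 20, sv A0 i * sv (RR B0) i = kyFan 20 (RR B0) :=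
    Finset.sum_congr rfl fun i hi => by rw [sv_one A0 A0_sq (Finset.mem_range.mp hi), one_mul]
  rw [h, R0]
  have := L0
  linarith

end Pool.Agent.Results.MP_30f82a_an.Fails
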